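import Pool.Agent.N883.U.Main

/-!
# Non-vanishing over abelian extensions of prime power degree, complex multiplication

`R` is the ring of integers of an imaginary quadratic field `K` of class number one, `ψ` a primitive
Hecke character of `K` of conductor `f` and infinity type `(1, 0)`, `Ω R` the period lattice of an
equation `y² = 4 x³ - g₂ x - g₃`.

* *Congruence.*  For all odd primes `p` not dividing the orders of `R/f` and of `Rˣ`, all valuations `v`
  of `ℂ` above `p` where the equation has good reduction, and all primitive ray class characters `χ` of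
  `K` of `p`-power order and of conductor `c` prime to `p f`, the numbers `conj L(ψ χ, 1) / Ω` are
  `v`-integral and
  `conj L(ψ χ, 1) / Ω ≡ conj L(ψ, 1) / Ω · ∏_{P ∣ c} (1 - 1 / ψ(P))` modulo the maximal ideal of `v`.
* *Stability.*  If `L(ψ, 1) ≠ 0`, then for all primes `p` not dividing an integer `N` depending only on
  `ψ`: `L(ψ χ, 1) ≠ 0` for all these `χ` such that `v(ψ(P) - 1) = 1` for all primes `P` dividing `c`.
* *Towers.*  For every such `p` and every `k ≥ 1` there is an infinite set `T` of rational primes `l`,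
  inert in `K`, such that there are characters of conductor `l` and of order `p ^ k` and `L(ψ χ, 1) ≠ 0`
  for all `χ` of `p`-power order whose conductor is a product of elements of `T`.

Let `E / K` be an elliptic curve with complex multiplication by `R` and Hecke character `ψ`.  Then
`L(E / F, s) = ∏_χ L(ψ χ, s) L(conj ψ χ, s)` for an abelian extension `F / K`, the product over the
characters of the Galois group, and `L(conj ψ χ, 1) = conj L(ψ conj χ, 1)`; and
`v(ψ(P) - 1) = 1` for all the `v` above `p` if and only if `p` does not divide the number of points of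
`E` over `R / P`.  So if `L(E / K, 1) ≠ 0`, then for almost all `p` the function `L(E / F, s)` does not
vanish at `1` for all the abelian extensions `F / K` of `p`-power degree that are ramified only at primes
`P`, prime to `p f`, with `p ∤ #E(R / P)`; by Arthaud and Rubin `E(F)` is finite for these `F`.

The proof: `conj L(ψ χ, 1) / Ω` is, up to a unit, the sum of `χ(x) (H(x) + w)` over the `x` modulo `c`
prime to `c`, where `H(x)` is a sum of quotients `℘'(s) / (℘(s) - ℘(Ω x / c))` over points `s` of order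
`f`, `v`-integral since the points have different reductions, and `w = f conj L(ψ, 1) / Ω`; and
`χ(x) ≡ 1`.  The sum for the trivial character is computed by the Euler factors.  The integrality and
the algebraicity of `w` come from the same formula for the conductor `n ≡ 1 mod f`, `n ≡ -1 mod p`.
All this is in `Pool.Agent.N883.U`; the formula for the sums and the values of `℘` modulo `v` are from
the starting library (`Pool.Agent.TH936.PU`).
-/

set_option autoImplicit false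

open Complex

namespace Pool.Agent.Results.MP_cd906c_nt.PrimePowerExtensionsCM

/-- The norm `N(I)` of an ideal (`0` for the zero ideal, whose residue ring is infinite). -/
noncomputable def norm {R : Subring ℂ} (I : Ideal R) : ℝ := (Nat.card (R ⧸ I) : ℝ)

/-- `ψ`, a function on the ideals of `R`, is a primitive Hecke character of conductor `f` and infinity
type `(n, 0)`: it is multiplicative, vanishes exactly at the zero ideal and the ideals not prime to
`f`, satisfies `ψ((α)) = α ^ n` for `α ≡ 1 mod f`, and this fails for every strictly larger ideal `f'`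
in place of `f`.  For `n = 0` these are the primitive ray class characters of conductor `f`. -/
structure IsHecke {R : Subring ℂ} (n : ℕ) (f : Ideal R) (ψ : Ideal R → ℂ) : Prop where
  ne_bot : f ≠ ⊥
  mul : ∀ I J : Ideal R, ψ (I * J) = ψ I * ψ J
  eq_zero : ∀ I : Ideal R, ψ I = 0 ↔ (I = ⊥ ∨ ¬ IsCoprime I f)
  principal : ∀ α : R, α ≠ 0 → α - 1 ∈ f → ψ (Ideal.span {α}) = (α : ℂ) ^ n
  primitive : ∀ f' : Ideal R, f < f' → ∃ α : R, α ≠ 0 ∧ α - 1 ∈ f' ∧ IsCoprime (Ideal.span {α}) f ∧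
    ψ (Ideal.span {α}) ≠ (α : ℂ) ^ n

/-- `d` is the order of `χ`: the least positive integer with `χ(I) ^ d = 1` whenever `χ(I) ≠ 0`. -/
def IsOrder {R : Subring ℂ} (χ : Ideal R → ℂ) (d : ℕ) : Prop :=
  IsLeast {n : ℕ | 0 < n ∧ ∀ I : Ideal R, χ I ≠ 0 → χ I ^ n = 1} d

/-- The order of `χ` is a power of `p`: for some `k` all the non-zero values satisfy
`χ(I) ^ (p ^ k) = 1`. -/
def IsPrimePower {R : Subring ℂ} (p : ℕ) (χ : Ideal R → ℂ) : Prop :=
  ∃ k : ℕ, ∀ I : Ideal R, χ I ≠ 0 → χ I ^ p ^ k = 1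

/-- `L` is entire and equal to `∑ θ(I) N(I)^(-s)` for `Re s > 3/2`. -/
def IsLFunction {R : Subring ℂ} (θ : Ideal R → ℂ) (L : ℂ → ℂ) : Prop :=
  Differentiable ℂ L ∧ ∀ s : ℂ, 3 / 2 < s.re →
    HasSum (fun I : Ideal R => θ I * (norm I : ℂ) ^ (-s)) (L s)

theorem isHecke_iff {R : Subring ℂ} (n : ℕ) (f : Ideal R) (ψ : Ideal R → ℂ) :
    IsHecke n f ψ ↔ Pool.Agent.W192.HK.HC n f ψ :=
  ⟨fun h => ⟨h.ne_bot, h.mul, h.eq_zero, h.principal, h.primitive⟩,
    fun h => ⟨h.ne, h.mul, h.zero, h.princ, h.prim⟩⟩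

theorem isOrder_iff {R : Subring ℂ} (χ : Ideal R → ℂ) (d : ℕ) :
    IsOrder χ d ↔ Pool.Agent.W192.HK.Od χ d :=
  ⟨fun h => ⟨h.1.1, h.1.2, fun _ hn h' => h.2 ⟨hn, h'⟩⟩,
    fun h => ⟨⟨h.pos, h.pow⟩, fun _ hn => h.least _ hn.1 hn.2⟩⟩

/-- **Main theorem.** Let `R = ℤ + ℤ ω` be a subring of `ℂ` that is a lattice and a principal ideal
ring and `ψ` a primitive Hecke character of conductor `f` and infinity type `(1, 0)` on the ideals of
`R`.  There are `L₀` and `L χ` such that:

1. `L₀` is the `L`-function of `ψ`, and `L χ` that of `ψ χ` for every primitive ray class character `χ`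
   of conductor prime to `f`.
2. Let `p` be an odd prime not dividing the orders of `R/f` and of `Rˣ`, `v` a valuation of `ℂ` with
   `v(p) < 1`, and `Ω R`, `Ω ≠ 0`, a lattice with `v(g₂) ≤ 1`, `v(g₃) ≤ 1`, `v(g₂³ - 27 g₃²) = 1`.  Let
   `χ` be a primitive ray class character of `p`-power order, of conductor `c` prime to `f` with
   `p ∤ #(R/c)`, and `S` the set of the maximal ideals containing `c`.  Then `conj (L χ 1) / Ω` and
   `conj (L₀ 1) / Ω` are `v`-integral, and
   `conj (L χ 1) / Ω ≡ conj (L₀ 1) / Ω · ∏_{P ∈ S} (1 - 1 / ψ(P))` modulo the maximal ideal of `v`.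
3. If `L₀ 1 ≠ 0`, there is `N ≠ 0` such that for all primes `p ∤ N`:
   a. `L χ 1 ≠ 0` for all primitive ray class characters `χ` of `p`-power order, of conductor `c`
      prime to `f`, such that for some valuation `v` above `p` all the maximal ideals `P` containing
      `c` satisfy `p ∉ P` and `v(ψ(P) - 1) = 1`;
   b. for every `k ≥ 1` there is an infinite set `T` of primes `l` such that `(l)` is maximal and there
      is a primitive ray class character of conductor `(l)` and order `p ^ k`, and for all primitive ray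
      class characters `χ` of `p`-power order such that every maximal ideal containing the conductor
      is `(l)` for an `l ∈ T`, the conductor is prime to `f` and `L χ 1 ≠ 0`. -/
theorem result (R : Subring ℂ) (ω : ℂ) (hω : 0 < ω.im)
    (hR : ∀ z : ℂ, z ∈ R ↔ ∃ x y : ℤ, z = x + y * ω) (hpid : IsPrincipalIdealRing R)
    (f : Ideal R) (ψ : Ideal R → ℂ) (hψ : IsHecke 1 f ψ) :
    ∃ (L₀ : ℂ → ℂ) (L : (Ideal R → ℂ) → ℂ → ℂ),
      (IsLFunction ψ L₀ ∧ ∀ (c : Ideal R) (χ : Ideal R → ℂ), IsCoprime f c → IsHecke 0 c χ →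
        IsLFunction (fun I => ψ I * χ I) (L χ)) ∧
      (∀ p : ℕ, p.Prime → p ≠ 2 → ¬ p ∣ Nat.card (R ⧸ f) → ¬ p ∣ Nat.card Rˣ →
        ∀ (Γ : Type) [LinearOrderedCommGroupWithZero Γ] (v : Valuation ℂ Γ), v (p : ℂ) < 1 →
        ∀ (P : PeriodPair) (Ω : ℂ), Ω ≠ 0 → (∀ z : ℂ, z ∈ P.lattice ↔ ∃ r : R, z = Ω * r) →
          v P.g₂ ≤ 1 → v P.g₃ ≤ 1 → v (P.g₂ ^ 3 - 27 * P.g₃ ^ 2) = 1 →
        ∀ (c : Ideal R) (χ : Ideal R → ℂ) (S : Finset (Ideal R)), IsCoprime f c → IsHecke 0 c χ →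
          IsPrimePower p χ → ¬ p ∣ Nat.card (R ⧸ c) →
          (∀ P : Ideal R, P ∈ S ↔ P.IsMaximal ∧ c ≤ P) →
          v ((starRingEnd ℂ) (L χ 1) / Ω) ≤ 1 ∧ v ((starRingEnd ℂ) (L₀ 1) / Ω) ≤ 1 ∧
            v ((starRingEnd ℂ) (L χ 1) / Ω -
              (starRingEnd ℂ) (L₀ 1) / Ω * ∏ P ∈ S, (1 - (ψ P)⁻¹)) < 1) ∧
      (L₀ 1 ≠ 0 → ∃ N : ℕ, N ≠ 0 ∧ ∀ p : ℕ, p.Prime → ¬ p ∣ N →
        (∀ (c : Ideal R) (χ : Ideal R → ℂ), IsCoprime f c → IsHecke 0 c χ → IsPrimePower p χ →
          (∃ (Γ : Type) (_ : LinearOrderedCommGroupWithZero Γ) (v : Valuation ℂ Γ),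
            v (p : ℂ) < 1 ∧ ∀ P : Ideal R, P.IsMaximal → c ≤ P →
              (p : R) ∉ P ∧ v (ψ P - 1) = 1) →
          L χ 1 ≠ 0) ∧
        ∀ k : ℕ, 0 < k → ∃ T : Set ℕ, T.Infinite ∧
          (∀ l ∈ T, l.Prime ∧ (Ideal.span {(l : R)}).IsMaximal ∧
            ∃ χ : Ideal R → ℂ, IsHecke 0 (Ideal.span {(l : R)}) χ ∧ IsOrder χ (p ^ k)) ∧
          ∀ (c : Ideal R) (χ : Ideal R → ℂ), IsHecke 0 c χ → IsPrimePower p χ →
            (∀ P : Ideal R, P.IsMaximal → c ≤ P → ∃ l ∈ T, P = Ideal.span {(l : R)}) →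
            IsCoprime f c ∧ L χ 1 ≠ 0) := by
  classical
  have hded : IsDedekindDomain R := inferInstance
  have hQ : Pool.Agent.W192.HK.QR R ω := ⟨hω, hR, hded⟩
  obtain ⟨f0, rfl⟩ : ∃ f0 : R, f = Ideal.span {f0} :=
    ⟨_, (Submodule.IsPrincipal.span_singleton_generator f).symm⟩
  have hψ' : Pool.Agent.W192.HK.HC 1 (Pool.Agent.W192.HK.sp f0) ψ := (isHecke_iff _ _ _).1 hψ
  obtain ⟨L₀, hL₀⟩ := Pool.Agent.N883.U.exists_IsF hQ hψ'
  have hex : ∀ (c : Ideal R) (χ : Ideal R → ℂ), IsCoprime (Ideal.span {f0}) c → IsHecke 0 c χ →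
      ∃ F, Pool.Agent.N883.U.IsF (fun I => ψ I * χ I) F := by
    intro c χ hc hχ
    obtain ⟨c0, rfl⟩ := Pool.Agent.N883.U.exists_gen c
    have h1 := Pool.Agent.Y696.lprod R ω hQ 1 _ _ ψ χ hψ' ((isHecke_iff _ _ _).1 hχ) hc
    rw [Ideal.span_singleton_mul_span_singleton] at h1
    exact Pool.Agent.N883.U.exists_IsF hQ h1
  set L : (Ideal R → ℂ) → ℂ → ℂ := fun χ =>
    if h : ∃ F, Pool.Agent.N883.U.IsF (fun I => ψ I * χ I) F then Classical.choose h
      else fun _ => 0 with hLdef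
  have hL : ∀ (c : Ideal R) (χ : Ideal R → ℂ), IsCoprime (Ideal.span {f0}) c → IsHecke 0 c χ →
      Pool.Agent.N883.U.IsF (fun I => ψ I * χ I) (L χ) := by
    intro c χ hc hχ
    have h := hex c χ hc hχ
    have e1 : L χ = Classical.choose h := by
      rw [hLdef]
      exact dif_pos h
    rw [e1]
    exact Classical.choose_spec h
  refine ⟨L₀, L, ⟨hL₀, fun c χ hc hχ => hL c χ hc hχ⟩, ?_, fun h0 => ?_⟩
  · intro p hp hp2 hpf hpu Γ _ v hv P Ω hΩ hP hg2 hg3 hd c χ S hc hχ hχp hpc hS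
    obtain ⟨k, hk⟩ := hχp
    have hF := hL c χ hc hχ
    obtain ⟨c0, rfl⟩ := Pool.Agent.N883.U.exists_gen c
    exact Pool.Agent.N883.U.cong_fin hQ hψ' hL₀ hp hp2 hpf hpu hv ⟨hΩ, hP⟩
      (Pool.Agent.N883.U.gd_of hp hp2 hv hg2 hg3 hd) hc ((isHecke_iff _ _ _).1 hχ) hpc hk hF
      (fun P => by rw [hS, Ideal.span_singleton_le_iff_mem])
  · obtain ⟨N, hN, h⟩ := Pool.Agent.N883.U.stable hQ hψ' hL₀ h0
    refine ⟨N, hN, fun p hp hpN => ?_⟩
    obtain ⟨h1, h2⟩ := h p hp hpN
    refine ⟨?_, fun k hk => ?_⟩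
    · intro c χ hc hχ hχp hv
      obtain ⟨Γ, hΓ, v, hv1, hv2⟩ := hv
      obtain ⟨j, hj⟩ := hχp
      exact h1 Γ v hv1 c χ (L χ) j hc ((isHecke_iff _ _ _).1 hχ) hj hv2 (hL c χ hc hχ)
    · obtain ⟨T, hT, h3, h4⟩ := h2 k hk
      refine ⟨T, hT, fun l hl => ?_, fun c χ hχ hχp hP => ?_⟩
      · obtain ⟨g1, g2, χ, g3, g4⟩ := h3 l hl
        exact ⟨g1, g2, χ, (isHecke_iff _ _ _).2 g3, (isOrder_iff _ _).2 g4⟩
      · obtain ⟨j, hj⟩ := hχp
        obtain ⟨g1, g2⟩ := h4 c χ (L χ) j ((isHecke_iff _ _ _).1 hχ) hj hP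
        exact ⟨g1, g2 (hL c χ g1 hχ)⟩

end Pool.Agent.Results.MP_cd906c_nt.PrimePowerExtensionsCM
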